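import Pool.Agent.TH346.CG.Defs2

open Finset
open scoped Pointwise

namespace Pool.Agent.TH17.CG

open Pool.Agent.TH346.CG

theorem ks_add {Γ : Type} [AddCommGroup Γ] [DecidableEq Γ] (T : Finset Γ) (m n : ℕ) :
    ks (m + n) T = ks m T + ks n T := by
  induction n with
  | zero =>
    show ks m T = ks m T + {0}
    rw [Finset.singleton_zero, add_zero]
  | succ n ih =>
    rw [← add_assoc]
    show ks (m + n) T + T = ks m T + (ks n T + T)
    rw [ih, add_assoc]

theorem zero_mem_ks {Γ : Type} [AddCommGroup Γ] [DecidableEq Γ] (T : Finset Γ) (h0 : 0 ∈ T)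
    (n : ℕ) : (0 : Γ) ∈ ks n T := by
  induction n with
  | zero => simp [ks]
  | succ n ih =>
    show (0 : Γ) ∈ ks n T + T
    rw [Finset.mem_add]
    exact ⟨0, ih, 0, h0, by simp⟩

theorem neg_mem_ks {Γ : Type} [AddCommGroup Γ] [DecidableEq Γ] (T : Finset Γ) (hT : -T = T)
    (n : ℕ) : ∀ a : Γ, a ∈ ks n T → -a ∈ ks n T := by
  induction n with
  | zero => intro a ha; simp [ks] at ha ⊢; exact ha
  | succ n ih =>
    intro a ha
    have ha' : a ∈ ks n T + T := ha
    show -a ∈ ks n T + T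
    rw [Finset.mem_add] at ha' ⊢
    obtain ⟨x, hx, y, hy, rfl⟩ := ha'
    refine ⟨-x, ih x hx, -y, ?_, by abel⟩
    rw [← hT]
    exact Finset.neg_mem_neg hy

theorem ks_mono {Γ : Type} [AddCommGroup Γ] [DecidableEq Γ] (T : Finset Γ) (h0 : 0 ∈ T)
    (m n : ℕ) : ks m T ⊆ ks (m + n) T := by
  intro x hx
  rw [ks_add, Finset.mem_add]
  exact ⟨x, hx, 0, zero_mem_ks T h0 n, by simp⟩

theorem nrm_sub {Γ : Type} [AddCommGroup Γ] [DecidableEq Γ] (A T : Finset Γ) (h0 : 0 ∈ T)
    (hT : -T = T) (j s : ℕ) (a b : Γ) (ha : a ∈ ks s T) (hb : b ∈ ks s T) :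
    nrm A (ks j T) (a - b) ≤ nrm A (ks (j + 2 * s) T) a + nrm A (ks (j + 2 * s) T) b := by
  unfold nrm
  set R := ks j T with hR
  set R' := ks (j + 2 * s) T with hR'
  have hsub : R ⊆ R' := ks_mono T h0 j (2 * s)
  have hmem : ∀ t ∈ R, t - a + b ∈ R' := by
    intro t ht
    have e : t - a + b = t + (-a + b) := by abel
    rw [e, hR', ks_add, Finset.mem_add]
    refine ⟨t, ht, -a + b, ?_, rfl⟩
    rw [two_mul, ks_add, Finset.mem_add]
    exact ⟨-a, neg_mem_ks T hT s a ha, b, hb, rfl⟩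
  have h1 : (R.filter fun t => ¬ (t ∈ A ↔ t - (a - b) ∈ A)) ⊆
      (R.filter fun t => ¬ (t ∈ A ↔ t - a ∈ A)) ∪
      (R.filter fun t => ¬ (t - a + b ∈ A ↔ t - a + b - b ∈ A)) := by
    intro t ht
    rw [Finset.mem_filter] at ht
    rw [Finset.mem_union, Finset.mem_filter, Finset.mem_filter]
    have e1 : t - (a - b) = t - a + b := by abel
    have e2 : t - a + b - b = t - a := by abel
    rw [e1] at ht
    rw [e2]
    by_cases h : (t ∈ A ↔ t - a ∈ A)
    · right
      refine ⟨ht.1, fun h2 => ht.2 (h.trans h2.symm)⟩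
    · left
      exact ⟨ht.1, h⟩
  refine (Finset.card_le_card h1).trans ((Finset.card_union_le _ _).trans ?_)
  refine Nat.add_le_add ?_ ?_
  · exact Finset.card_le_card (Finset.filter_subset_filter _ hsub)
  · refine Finset.card_le_card_of_injOn (fun t => t - a + b) ?_ ?_
    · intro t ht
      have ht' := Finset.mem_filter.mp (Finset.mem_coe.mp ht)
      exact Finset.mem_coe.mpr (Finset.mem_filter.mpr ⟨hmem t ht'.1, ht'.2⟩)
    · intro x _ y _ hxy
      have hxy' : x - a + b = y - a + b := hxy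
      have := add_right_cancel hxy'
      exact sub_left_injective this

end Pool.Agent.TH17.CG
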